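import Mathlib
import Pool.Agent.NH16.DL.C7

set_option autoImplicit false

/-!
# Prime tuplets `q r_1 + 1, ..., q r_l + 1`, on average over the `r_j ≤ b log x`, and primes in short
progressions

`w T p`, `S T` and `N x T` are the `w(p)`, the singular product and the counting function of the
problem for the set `T` of the `r_j`, and `E l x R` is the mean over the `l`-element subsets `T` of
`{1, ..., R}` (normalised by `R ^ l`) of the distance of `N x T / (x / log ^ l x)` to `S T`.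
`Progr y x R η`: for every set `A` of slopes `r ≤ R` and for almost all `q` the number of the primes
`q r + 1`, `r ∈ A`, is the expected one, up to `η R / log x` on average over `q`.
-/

namespace Pool.Agent.Results.MP_d018b2_nt.AlmostAllProgressions

open Finset Filter Topology

/-- the number of residue classes `q mod p` with `p ∣ ∏ (q r + 1)` -/
def w (T : Finset ℕ) (p : ℕ) : ℕ := ((range p).filter (fun q => p ∣ ∏ r ∈ T, (q * r + 1))).card

/-- the singular product of the forms `q r + 1`, `r ∈ T` -/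
noncomputable def S (T : Finset ℕ) : ℝ :=
  ∏' p : Nat.Primes, (1 - (w T p : ℝ) / ((p : ℕ) : ℝ)) / (1 - 1 / ((p : ℕ) : ℝ)) ^ T.card

/-- the number of `x ≤ q < 2x` with all `q r + 1`, `r ∈ T`, prime -/
def N (x : ℕ) (T : Finset ℕ) : ℕ := ((Ico x (2 * x)).filter (fun q => ∀ r ∈ T, (q * r + 1).Prime)).card

/-- the mean error of the conjectured asymptotic formula over the `l`-element subsets of
`{1, ..., R}` -/
noncomputable def E (l x R : ℕ) : ℝ :=
  (1 / (R : ℝ) ^ l) * ∑ T ∈ (Icc 1 R).powersetCard l, |(N x T : ℝ) / (x / Real.log x ^ l) - S T|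

/-- the expected density of the primes among the numbers `≡ q r + 1` modulo the primes `≤ y`, divided
by the density of all primes: `∏ (1 - 1/p)⁻¹` if no prime `p ≤ y` divides `q r + 1`, otherwise `0` -/
noncomputable def g (y r q : ℕ) : ℝ :=
  if ∀ p ∈ (Icc 1 y).filter Nat.Prime, ¬ p ∣ q * r + 1 then
    ∏ p ∈ (Icc 1 y).filter Nat.Prime, (1 - 1 / (p : ℝ))⁻¹ else 0

/-- distribution of the primes `q r + 1`, `r ∈ A`, for almost all `q`, for all `A ⊆ {1, ..., R}` -/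
def Progr (y x R : ℕ) (η : ℝ) : Prop := ∀ A : Finset ℕ, A ⊆ Icc 1 R →
  (1 / (x : ℝ)) * ∑ q ∈ Ico x (2 * x), |Real.log x / R * ((A.filter (fun r => (q * r + 1).Prime)).card : ℝ) -
    1 / R * ∑ r ∈ A, g y r q| ≤ η

lemma g_eq (y r q : ℕ) : g y r q = NH16.DL.Gf y r q := by
  unfold g NH16.DL.Gf NH16.DL.Vv
  rw [prod_inv_distrib]
  rfl

/-- the mean over `q` for a set of slopes -/
lemma mean_eq {x R y : ℕ} (A : Finset (Fin R)) :
    Finset.expect univ (fun q : Fin x => |Finset.expect univ (fun s : Fin R =>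
      (if s ∈ A then (1 : ℝ) else 0) * (NH16.DL.fx R x s q - NH16.DL.gx R x y s q))|) =
    (1 / (x : ℝ)) * ∑ q ∈ Ico x (2 * x), |Real.log x / R *
      (((A.image NH16.DL.vl).filter (fun r => (q * r + 1).Prime)).card : ℝ) -
      1 / R * ∑ r ∈ A.image NH16.DL.vl, g y r q| := by
  classical
  rw [Fintype.expect_eq_sum_div_card, Fintype.card_fin, ← NH16.DL.sum_shift' x (fun q => |Real.log x / R *
      (((A.image NH16.DL.vl).filter (fun r => (q * r + 1).Prime)).card : ℝ) -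
      1 / R * ∑ r ∈ A.image NH16.DL.vl, g y r q|), div_eq_inv_mul, one_div]
  congr 1
  refine sum_congr rfl fun q _ => ?_
  congr 1
  rw [Fintype.expect_eq_sum_div_card, Fintype.card_fin]
  have e1 : ∑ s : Fin R, (if s ∈ A then (1 : ℝ) else 0) * (NH16.DL.fx R x s q - NH16.DL.gx R x y s q) =
      ∑ s ∈ A, (NH16.DL.fx R x s q - NH16.DL.gx R x y s q) := by
    rw [← sum_filter_add_sum_filter_not univ (fun s => s ∈ A)]
    have a1 : ∑ s ∈ univ.filter (fun s => ¬ s ∈ A),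
        (if s ∈ A then (1 : ℝ) else 0) * (NH16.DL.fx R x s q - NH16.DL.gx R x y s q) = 0 :=
      sum_eq_zero fun s hs => by rw [if_neg (mem_filter.1 hs).2, zero_mul]
    rw [a1, add_zero]
    have a2 : univ.filter (fun s => s ∈ A) = A := by ext s; simp
    rw [a2]
    refine sum_congr rfl fun s hs => ?_
    rw [if_pos hs, one_mul]
  have hi : ∀ s ∈ A, ∀ t ∈ A, NH16.DL.vl s = NH16.DL.vl t → s = t := fun s _ t _ h => NH16.DL.vl_inj h
  have e2 : (((A.image NH16.DL.vl).filter (fun r => ((x + q : ℕ) * r + 1).Prime)).card : ℝ) =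
      ∑ s ∈ A, (if ((x + q : ℕ) * NH16.DL.vl s + 1).Prime then (1 : ℝ) else 0) := by
    rw [card_filter]
    push_cast
    rw [sum_image hi]
  rw [e1, e2, sum_image hi, sum_sub_distrib, sub_div]
  congr 1
  · rw [mul_sum, sum_div]
    refine sum_congr rfl fun s _ => ?_
    unfold NH16.DL.fx
    split_ifs
    · rw [mul_one]
    · rw [zero_div, mul_zero]
  · rw [div_eq_inv_mul, one_div]
    congr 1
    refine sum_congr rfl fun s _ => ?_
    rw [g_eq]
    rfl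

lemma progr_iff {x R y : ℕ} {η : ℝ} : Progr y x R η ↔ NH16.DL.Pap y x R η := by
  classical
  constructor
  · intro h A
    rw [mean_eq]
    refine h _ ?_
    intro r hr
    obtain ⟨s, _, rfl⟩ := mem_image.1 hr
    exact mem_Icc.2 ⟨NH16.DL.vl_pos s, NH16.DL.vl_le s⟩
  · intro h A hA
    set A' : Finset (Fin R) := univ.filter (fun s => NH16.DL.vl s ∈ A) with hA'
    have hAA : A'.image NH16.DL.vl = A := by
      ext t
      rw [mem_image]
      constructor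
      · rintro ⟨s, hs, rfl⟩
        exact (mem_filter.1 hs).2
      · intro ht
        have h1 := mem_Icc.1 (hA ht)
        refine ⟨⟨t - 1, by omega⟩, ?_, ?_⟩
        · rw [hA', mem_filter]
          refine ⟨mem_univ _, ?_⟩
          unfold NH16.DL.vl
          simp only
          rwa [Nat.sub_add_cancel h1.1]
        · unfold NH16.DL.vl
          simp only
          exact Nat.sub_add_cancel h1.1
    have h1 := h A'
    rw [mean_eq, hAA] at h1
    exact h1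

/-- (1) If the asymptotic formula holds on average for one length `k ≥ 2`, then for every set `A` of
slopes and for almost all `q` the primes `q r + 1`, `r ∈ A`, have the expected number.
(2) Conversely this distribution of the primes `q r + 1` (a statement about single primes) implies the
asymptotic formula on average for all the lengths.
(3) In particular for all `R = R(x)` with `R / log x → ∞` and `R ≤ (log x) ^ C` the three statements
`E l x R → 0` for all `l`, `E k x R → 0` for one `k ≥ 2`, and the distribution of the primes in the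
progressions for almost all `q` (for all large `y`, or for arbitrarily large `y`) are equivalent. -/
theorem result :
    (∀ k : ℕ, 2 ≤ k → ∀ η : ℝ, 0 < η → ∃ y₀ : ℕ, ∀ y : ℕ, y₀ ≤ y → ∃ ε : ℝ, 0 < ε ∧ ∃ b₀ : ℝ, 1 ≤ b₀ ∧
      ∀ C : ℝ, 0 ≤ C → ∃ x₀ : ℕ, ∀ x : ℕ, x₀ ≤ x → ∀ R : ℕ,
        b₀ * Real.log x ≤ R → (R : ℝ) ≤ Real.log x ^ C → E k x R ≤ ε → Progr y x R η) ∧
    (∀ l : ℕ, 1 ≤ l → ∀ δ : ℝ, 0 < δ → ∃ η : ℝ, 0 < η ∧ ∃ b₀ : ℝ, 1 ≤ b₀ ∧ ∃ y₀ : ℕ, ∀ y : ℕ, y₀ ≤ y →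
      ∃ x₀ : ℕ, ∀ x : ℕ, x₀ ≤ x → ∀ R : ℕ, b₀ * Real.log x ≤ R → Progr y x R η → E l x R ≤ δ) ∧
    (∀ C : ℝ, 0 ≤ C → ∀ R : ℕ → ℕ, Tendsto (fun x : ℕ => (R x : ℝ) / Real.log x) atTop atTop →
      (∀ᶠ x : ℕ in atTop, (R x : ℝ) ≤ Real.log x ^ C) →
      [∀ l : ℕ, 1 ≤ l → Tendsto (fun x => E l x (R x)) atTop (𝓝 0),
        ∃ k : ℕ, 2 ≤ k ∧ Tendsto (fun x => E k x (R x)) atTop (𝓝 0),
        ∀ η : ℝ, 0 < η → ∀ᶠ y : ℕ in atTop, ∀ᶠ x : ℕ in atTop, Progr y x (R x) η,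
        ∀ η : ℝ, 0 < η → ∃ᶠ y : ℕ in atTop, ∀ᶠ x : ℕ in atTop, Progr y x (R x) η].TFAE) := by
  have h1 : ∀ k : ℕ, 2 ≤ k → ∀ η : ℝ, 0 < η → ∃ y₀ : ℕ, ∀ y : ℕ, y₀ ≤ y → ∃ ε : ℝ, 0 < ε ∧ ∃ b₀ : ℝ, 1 ≤ b₀ ∧
      ∀ C : ℝ, 0 ≤ C → ∃ x₀ : ℕ, ∀ x : ℕ, x₀ ≤ x → ∀ R : ℕ,
        b₀ * Real.log x ≤ R → (R : ℝ) ≤ Real.log x ^ C → E k x R ≤ ε → Progr y x R η := by
    intro k hk η hη
    obtain ⟨y₀, hy₀⟩ := eventually_atTop.1 (NH16.DL.pap_of_DD k hk hη)
    refine ⟨y₀, fun y hy => ?_⟩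
    obtain ⟨ε, hε, b₀, hb₀, h⟩ := hy₀ y hy
    refine ⟨ε, hε, b₀, hb₀, fun C hC => ?_⟩
    obtain ⟨x₀, hx₀⟩ := h C hC
    exact ⟨x₀, fun x hx R hR1 hR2 hE => progr_iff.2 (hx₀ x hx R hR1 hR2 hE)⟩
  have h2 : ∀ l : ℕ, 1 ≤ l → ∀ δ : ℝ, 0 < δ → ∃ η : ℝ, 0 < η ∧ ∃ b₀ : ℝ, 1 ≤ b₀ ∧ ∃ y₀ : ℕ, ∀ y : ℕ, y₀ ≤ y →
      ∃ x₀ : ℕ, ∀ x : ℕ, x₀ ≤ x → ∀ R : ℕ, b₀ * Real.log x ≤ R → Progr y x R η → E l x R ≤ δ := by
    intro l hl δ hδ
    obtain ⟨η, hη, b₀, hb₀, y₀, h⟩ := NH16.DL.DD_of_pap l hl hδ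
    refine ⟨η, hη, b₀, hb₀, y₀, fun y hy => ?_⟩
    obtain ⟨x₀, hx₀⟩ := h y hy
    exact ⟨x₀, fun x hx R hR hP => hx₀ x hx R hR (progr_iff.1 hP)⟩
  refine ⟨h1, h2, fun C hC R hR hRC => ?_⟩
  have hlog : Tendsto (fun x : ℕ => Real.log (x : ℝ)) atTop atTop :=
    Real.tendsto_log_atTop.comp tendsto_natCast_atTop_atTop
  have hE0 : ∀ l x r, 0 ≤ E l x r := fun l x r => by
    unfold E
    exact mul_nonneg (by positivity) (sum_nonneg fun _ _ => abs_nonneg _)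
  have hbig : ∀ b₀ : ℝ, ∀ᶠ x : ℕ in atTop, b₀ * Real.log x ≤ R x := by
    intro b₀
    filter_upwards [hR.eventually_ge_atTop b₀, hlog.eventually_gt_atTop 0] with x hx hx0
    rwa [le_div_iff₀ hx0] at hx
  have hlim : ∀ f : ℕ → ℝ, (∀ x, 0 ≤ f x) → (∀ δ : ℝ, 0 < δ → ∀ᶠ x in atTop, f x ≤ δ) →
      Tendsto f atTop (𝓝 0) := by
    intro f hf h
    rw [Metric.tendsto_nhds]
    intro δ hδ
    filter_upwards [h (δ / 2) (by positivity)] with x hx
    rw [Real.dist_eq, sub_zero, abs_of_nonneg (hf x)]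
    linarith
  tfae_have 1 → 2 := fun h => ⟨2, le_rfl, h 2 (by norm_num)⟩
  tfae_have 2 → 3 := by
    rintro ⟨k, hk, hk2⟩ η hη
    obtain ⟨y₀, hy₀⟩ := h1 k hk η hη
    filter_upwards [eventually_ge_atTop y₀] with y hy
    obtain ⟨ε, hε, b₀, _, h⟩ := hy₀ y hy
    obtain ⟨x₀, hx₀⟩ := h C hC
    filter_upwards [hk2.eventually (gt_mem_nhds hε), hbig b₀, hRC, eventually_ge_atTop x₀] with x a1 a2 a3 a4
    exact hx₀ x a4 (R x) a2 a3 (le_of_lt a1)
  tfae_have 3 → 4 := fun h η hη => (h η hη).frequently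
  tfae_have 4 → 1 := by
    intro h l hl
    refine hlim _ (fun x => hE0 _ _ _) fun δ hδ => ?_
    obtain ⟨η, hη, b₀, _, y₀, hy₀⟩ := h2 l hl δ hδ
    obtain ⟨y, hy1, hy2⟩ := ((h η hη).and_eventually (eventually_ge_atTop y₀)).exists
    obtain ⟨x₀, hx₀⟩ := hy₀ y hy2
    filter_upwards [hy1, hbig b₀, eventually_ge_atTop x₀] with x a1 a2 a3
    exact hx₀ x a3 (R x) a2 a1
  tfae_finish

end Pool.Agent.Results.MP_d018b2_nt.AlmostAllProgressions
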