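import Mathlib
import Pool.Agent.NH16.DL.C6

set_option autoImplicit false

/-!
# Prime tuplets `q r_1 + 1, ..., q r_l + 1`, on average over the `r_j ≤ b log x`: one length, or
upper bounds for pairs, control all the lengths

`w T p`, `S T` and `N x T` are the `w(p)`, the singular product and the counting function of the
problem for the set `T` of the `r_j`, and `E l x R` is the mean over the `l`-element subsets `T` of
`{1, ..., R}` (normalised by `R ^ l`) of the distance of `N x T / (x / log ^ l x)` to `S T`.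
-/

namespace Pool.Agent.Results.MP_d018b2_nt.OneLengthOrPairBounds

open Finset Filter Topology

/-- the number of residue classes `q mod p` with `p ∣ ∏ (q r + 1)` -/
def w (T : Finset ℕ) (p : ℕ) : ℕ := ((range p).filter (fun q => p ∣ ∏ r ∈ T, (q * r + 1))).card

/-- the singular product of the forms `q r + 1`, `r ∈ T` -/
noncomputable def S (T : Finset ℕ) : ℝ :=
  ∏' p : Nat.Primes, (1 - (w T p : ℝ) / ((p : ℕ) : ℝ)) / (1 - 1 / ((p : ℕ) : ℝ)) ^ T.card

/-- the number of `x ≤ q < 2x` with all `q r + 1`, `r ∈ T`, prime -/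
def N (x : ℕ) (T : Finset ℕ) : ℕ := ((Ico x (2 * x)).filter (fun q => ∀ r ∈ T, (q * r + 1).Prime)).card

/-- the mean error of the conjectured asymptotic formula over the `l`-element subsets of
`{1, ..., R}` -/
noncomputable def E (l x R : ℕ) : ℝ :=
  (1 / (R : ℝ) ^ l) * ∑ T ∈ (Icc 1 R).powersetCard l, |(N x T : ℝ) / (x / Real.log x ^ l) - S T|

/-- upper bounds for the pairs, on average over the ordered pairs of every subset `A` of
`{1, ..., R}` -/
def PairUpper (ε : ℝ) (x R : ℕ) : Prop := ∀ A : Finset ℕ, A ⊆ Icc 1 R →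
  ∑ p ∈ A.offDiag, (N x {p.1, p.2} : ℝ) ≤
    x / Real.log x ^ 2 * (∑ p ∈ A.offDiag, S {p.1, p.2} + ε * R ^ 2)

lemma pairUpper_of {x R : ℕ} (hx : 1 ≤ x) (hL : 0 < Real.log x) (hR : 1 ≤ R) :
    PairUpper (4 * E 2 x R) x R := by
  classical
  intro A hA
  have hxp : (0 : ℝ) < x := by exact_mod_cast hx
  have hRp : (0 : ℝ) < R := by exact_mod_cast hR
  set A' : Finset (Fin R) := univ.filter (fun s => NH16.DL.vl s ∈ A) with hA'
  have hAA : A'.image NH16.DL.vl = A := by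
    ext t
    rw [mem_image]
    constructor
    · rintro ⟨s, hs, rfl⟩
      exact (mem_filter.1 hs).2
    · intro ht
      have h1 := mem_Icc.1 (hA ht)
      refine ⟨⟨t - 1, by omega⟩, ?_, ?_⟩
      · rw [hA', mem_filter]
        refine ⟨mem_univ _, ?_⟩
        unfold NH16.DL.vl
        simp only
        rwa [Nat.sub_add_cancel h1.1]
      · unfold NH16.DL.vl
        simp only
        exact Nat.sub_add_cancel h1.1
  have h1 := NH16.DL.sum_offDiag A' (fun T => (N x T : ℝ) / (x / Real.log x ^ 2) - S T)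
  rw [hAA] at h1
  have h2 : ∑ p ∈ A.offDiag, ((N x {p.1, p.2} : ℝ) / (x / Real.log x ^ 2) - S {p.1, p.2}) ≤
      4 * E 2 x R * R ^ 2 := by
    rw [← h1]
    have h3 := NH16.DL.sum_inj_le (R := R) (m := 2)
      (fun T => |(N x T : ℝ) / (x / Real.log x ^ 2) - S T|) (fun T => abs_nonneg _)
    have e : 4 * E 2 x R * R ^ 2 = ((2 : ℕ) : ℝ) ^ 2 * ∑ T ∈ (Icc 1 R).powersetCard 2,
        |(N x T : ℝ) / (x / Real.log x ^ 2) - S T| := by
      unfold E
      generalize ∑ T ∈ (Icc 1 R).powersetCard 2, |(N x T : ℝ) / (x / Real.log x ^ 2) - S T| = Z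
      push_cast
      field_simp
      ring
    rw [e]
    refine le_trans (sum_le_sum fun r _ => ?_) h3
    split_ifs with hi h0 h1'
    · rw [one_mul, one_mul]
      exact le_abs_self _
    · rw [mul_zero, zero_mul]
      exact abs_nonneg _
    · rw [zero_mul, zero_mul]
      exact abs_nonneg _
    · rw [zero_mul, zero_mul]
      exact abs_nonneg _
    · exact le_rfl
  rw [sum_sub_distrib, ← sum_div] at h2
  have h3 : (∑ p ∈ A.offDiag, (N x {p.1, p.2} : ℝ)) / (x / Real.log x ^ 2) ≤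
      ∑ p ∈ A.offDiag, S {p.1, p.2} + 4 * E 2 x R * R ^ 2 := by linarith
  rw [div_le_iff₀ (by positivity)] at h3
  rw [mul_comm]
  exact h3

/-- (1) For all `k ≥ 2`, `l ≥ 1` and `δ > 0` there are `ε > 0` and `b₀` such that for all `C` there is
`x₀` such that for all `x ≥ x₀` and `b₀ log x ≤ R ≤ (log x) ^ C`: if the mean error `E k x R` over the
`k`-element subsets of `{1, ..., R}` is at most `ε`, then `E l x R ≤ δ`.
(2) The same conclusion `E l x R ≤ δ` if the number of pairs satisfies, for every subset `A` of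
`{1, ..., R}`, the UPPER bound `∑ N x {r, s} ≤ (x / log² x) (∑ S {r, s} + ε R²)`, the sums being over the
ordered pairs of distinct elements of `A`.
(3) In particular for all `R = R(x)` with `R / log x → ∞` and `R ≤ (log x) ^ C` the following are
equivalent: the mean error tends to `0` for all lengths; it tends to `0` for one length `k ≥ 2`; for
every `ε > 0` the upper bounds for the pairs of all subsets hold for all large `x`. -/
theorem result :
    (∀ k l : ℕ, 2 ≤ k → 1 ≤ l → ∀ δ : ℝ, 0 < δ → ∃ ε : ℝ, 0 < ε ∧ ∃ b₀ : ℝ, 1 ≤ b₀ ∧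
      ∀ C : ℝ, 0 ≤ C → ∃ x₀ : ℕ, ∀ x : ℕ, x₀ ≤ x → ∀ R : ℕ,
        b₀ * Real.log x ≤ R → (R : ℝ) ≤ Real.log x ^ C → E k x R ≤ ε → E l x R ≤ δ) ∧
    (∀ l : ℕ, 1 ≤ l → ∀ δ : ℝ, 0 < δ → ∃ ε : ℝ, 0 < ε ∧ ∃ b₀ : ℝ, 1 ≤ b₀ ∧
      ∀ C : ℝ, 0 ≤ C → ∃ x₀ : ℕ, ∀ x : ℕ, x₀ ≤ x → ∀ R : ℕ,
        b₀ * Real.log x ≤ R → (R : ℝ) ≤ Real.log x ^ C → PairUpper ε x R → E l x R ≤ δ) ∧
    (∀ C : ℝ, 0 ≤ C → ∀ R : ℕ → ℕ, Tendsto (fun x : ℕ => (R x : ℝ) / Real.log x) atTop atTop →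
      (∀ᶠ x : ℕ in atTop, (R x : ℝ) ≤ Real.log x ^ C) →
      [∀ l : ℕ, 1 ≤ l → Tendsto (fun x => E l x (R x)) atTop (𝓝 0),
        ∃ k : ℕ, 2 ≤ k ∧ Tendsto (fun x => E k x (R x)) atTop (𝓝 0),
        ∀ ε : ℝ, 0 < ε → ∀ᶠ x : ℕ in atTop, PairUpper ε x (R x)].TFAE) := by
  have h1 : ∀ k l : ℕ, 2 ≤ k → 1 ≤ l → ∀ δ : ℝ, 0 < δ → ∃ ε : ℝ, 0 < ε ∧ ∃ b₀ : ℝ, 1 ≤ b₀ ∧
      ∀ C : ℝ, 0 ≤ C → ∃ x₀ : ℕ, ∀ x : ℕ, x₀ ≤ x → ∀ R : ℕ,
        b₀ * Real.log x ≤ R → (R : ℝ) ≤ Real.log x ^ C → E k x R ≤ ε → E l x R ≤ δ :=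
    fun k l hk hl δ hδ => NH16.DL.all_lengths k l hk hl hδ
  have h2 : ∀ l : ℕ, 1 ≤ l → ∀ δ : ℝ, 0 < δ → ∃ ε : ℝ, 0 < ε ∧ ∃ b₀ : ℝ, 1 ≤ b₀ ∧
      ∀ C : ℝ, 0 ≤ C → ∃ x₀ : ℕ, ∀ x : ℕ, x₀ ≤ x → ∀ R : ℕ,
        b₀ * Real.log x ≤ R → (R : ℝ) ≤ Real.log x ^ C → PairUpper ε x R → E l x R ≤ δ :=
    fun l hl δ hδ => NH16.DL.all_of_pairs l hl hδ
  refine ⟨h1, h2, fun C hC R hR hRC => ?_⟩
  have hlog : Tendsto (fun x : ℕ => Real.log (x : ℝ)) atTop atTop :=
    Real.tendsto_log_atTop.comp tendsto_natCast_atTop_atTop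
  have hE0 : ∀ l x r, 0 ≤ E l x r := fun l x r => by
    unfold E
    exact mul_nonneg (by positivity) (sum_nonneg fun _ _ => abs_nonneg _)
  have hbig : ∀ b₀ : ℝ, ∀ᶠ x : ℕ in atTop, b₀ * Real.log x ≤ R x := by
    intro b₀
    filter_upwards [hR.eventually_ge_atTop b₀, hlog.eventually_gt_atTop 0] with x hx hx0
    rwa [le_div_iff₀ hx0] at hx
  have hlim : ∀ f : ℕ → ℝ, (∀ x, 0 ≤ f x) → (∀ δ : ℝ, 0 < δ → ∀ᶠ x in atTop, f x ≤ δ) →
      Tendsto f atTop (𝓝 0) := by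
    intro f hf h
    rw [Metric.tendsto_nhds]
    intro δ hδ
    filter_upwards [h (δ / 2) (by positivity)] with x hx
    rw [Real.dist_eq, sub_zero, abs_of_nonneg (hf x)]
    linarith
  tfae_have 1 → 2 := fun h => ⟨2, le_rfl, h 2 (by norm_num)⟩
  tfae_have 2 → 1 := by
    rintro ⟨k, hk, hk2⟩ l hl
    refine hlim _ (fun x => hE0 _ _ _) fun δ hδ => ?_
    obtain ⟨ε, hε, b₀, _, hb⟩ := h1 k l hk hl δ hδ
    obtain ⟨x₀, hx₀⟩ := hb C hC
    filter_upwards [hk2.eventually (gt_mem_nhds hε), hbig b₀, hRC, eventually_ge_atTop x₀] with x a1 a2 a3 a4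
    exact hx₀ x a4 (R x) a2 a3 (le_of_lt a1)
  tfae_have 1 → 3 := by
    intro h ε hε
    filter_upwards [(h 2 (by norm_num)).eventually (gt_mem_nhds (by positivity : 0 < ε / 4)), hbig 1,
      hlog.eventually_ge_atTop 1, eventually_ge_atTop 1] with x a1 a2 a3 a4
    have hRx : 1 ≤ R x := by
      have : (1 : ℝ) ≤ R x := by linarith
      exact_mod_cast this
    intro A hA
    refine (pairUpper_of a4 (by linarith) hRx A hA).trans ?_
    have hRp : (0 : ℝ) < R x := by exact_mod_cast hRx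
    have hxp : (0 : ℝ) < x := by exact_mod_cast a4
    refine mul_le_mul_of_nonneg_left (add_le_add le_rfl ?_) (by positivity)
    refine mul_le_mul_of_nonneg_right ?_ (by positivity)
    have : E 2 x (R x) < ε / 4 := a1
    linarith
  tfae_have 3 → 1 := by
    intro h l hl
    refine hlim _ (fun x => hE0 _ _ _) fun δ hδ => ?_
    obtain ⟨ε, hε, b₀, _, hb⟩ := h2 l hl δ hδ
    obtain ⟨x₀, hx₀⟩ := hb C hC
    filter_upwards [h ε hε, hbig b₀, hRC, eventually_ge_atTop x₀] with x a1 a2 a3 a4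
    exact hx₀ x a4 (R x) a2 a3 a1
  tfae_finish

end Pool.Agent.Results.MP_d018b2_nt.OneLengthOrPairBounds
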