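import Mathlib
import Pool.Agent.NH16.QL.All

set_option autoImplicit false

/-!
# Prime tuplets `q r_1 + 1, ..., q r_l + 1` inside every set of `λ log x` factors, `λ > 0` arbitrarily small

`w T p`, `S T` and `N x T` are the `w(p)`, the singular product and the counting function of the
problem for the set `T` of the `r_j`.

For every `l ≥ 2`, `ε > 0` and `λ > 0`, inside every set `A` of positive integers `r ≤ (log x) ^ C` with
`∑ r / φ(r) ≥ λ log x` (for instance inside every set of at least `λ log x` integers `r ≤ b log x`), the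
proportion `4 ^ (1 - l) - ε` of the `l`-element subsets `T` of `A`, measured by the singular product, has
`N x T ≥ κ (S T) x / (log x) ^ l`, with `κ > 0` depending on `l`, `ε` and `λ` only.
-/

namespace Pool.Agent.Results.MP_d018b2_nt.QuarterAtEveryScale

open Finset

/-- the number of residue classes `q mod p` with `p ∣ ∏ (q r + 1)` -/
def w (T : Finset ℕ) (p : ℕ) : ℕ := ((range p).filter (fun q => p ∣ ∏ r ∈ T, (q * r + 1))).card

/-- the singular product of the forms `q r + 1`, `r ∈ T` -/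
noncomputable def S (T : Finset ℕ) : ℝ :=
  ∏' p : Nat.Primes, (1 - (w T p : ℝ) / ((p : ℕ) : ℝ)) / (1 - 1 / ((p : ℕ) : ℝ)) ^ T.card

/-- the number of `x ≤ q < 2x` with all `q r + 1`, `r ∈ T`, prime -/
def N (x : ℕ) (T : Finset ℕ) : ℕ := ((Ico x (2 * x)).filter (fun q => ∀ r ∈ T, (q * r + 1).Prime)).card

open Classical in
/-- The singular products converge.  For all `k ≥ 1`, `ε > 0`, `lam > 0` there is `κ > 0` such that for
every `C` and all large `x`, for every finite set `A` of positive integers `r ≤ (log x) ^ C`: if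
`∑ r / φ(r) ≥ lam log x`, then the `(k + 1)`-element subsets `T` of `A` with
`N x T ≥ κ (S T) x / (log x) ^ (k + 1)` carry at least the proportion `4 ^ (-k) - ε` of the sum of the
`S T` over all `(k + 1)`-element subsets; and that sum is at least `κ (A.card) ^ (k + 1)` if `A` has at
least `lam log x` elements. -/
theorem result :
    (∀ T : Finset ℕ, (∀ r ∈ T, 1 ≤ r) → HasProd (fun p : Nat.Primes =>
      (1 - (w T p : ℝ) / ((p : ℕ) : ℝ)) / (1 - 1 / ((p : ℕ) : ℝ)) ^ T.card) (S T)) ∧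
    ∀ k : ℕ, 1 ≤ k → ∀ ε : ℝ, 0 < ε → ∀ lam : ℝ, 0 < lam → ∃ κ : ℝ, 0 < κ ∧ ∀ C : ℝ,
      ∃ x₀ : ℕ, ∀ x : ℕ, x₀ ≤ x → ∀ A : Finset ℕ, (∀ r ∈ A, 1 ≤ r ∧ (r : ℝ) ≤ Real.log x ^ C) →
        (lam * Real.log x ≤ ∑ r ∈ A, (r : ℝ) / Nat.totient r →
          ((1 / 4 : ℝ) ^ k - ε) * ∑ T ∈ A.powersetCard (k + 1), S T ≤
            ∑ T ∈ (A.powersetCard (k + 1)).filter
              (fun T => κ * S T * (x / Real.log x ^ (k + 1)) ≤ N x T), S T) ∧
        (lam * Real.log x ≤ A.card → κ * (A.card : ℝ) ^ (k + 1) ≤ ∑ T ∈ A.powersetCard (k + 1), S T) := by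
  refine ⟨fun _ hT => Pool.Agent.W218.MU.SD_hasProd hT, fun k hk ε hε lam hlam => ?_⟩
  obtain ⟨κ1, hκ1, h1⟩ := Pool.Agent.NH16.QL.fin_holds k ε lam hk hε hlam
  set κ2 : ℝ := (1 / 2) ^ (k + 1) / (3 / 2) ^ k / (k + 1).factorial / 2 with hκ2d
  have hκ2 : 0 < κ2 := by positivity
  refine ⟨min κ1 κ2, lt_min hκ1 hκ2, fun C => ?_⟩
  obtain ⟨x1, hx1⟩ := h1 C
  obtain ⟨x2, hx2⟩ := Filter.eventually_atTop.1 (Pool.Agent.H387R2.MB.CT_sum_ge k hlam 1 le_rfl C)
  refine ⟨max x1 x2, fun x hx A hA => ⟨fun hs => ?_, fun hcard => ?_⟩⟩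
  · refine (hx1 x (le_trans (le_max_left _ _) hx) A hA hs).trans ?_
    have hS0 : ∀ T ∈ A.powersetCard (k + 1), 0 ≤ S T := fun T hT => by
      rw [mem_powersetCard] at hT
      have hT1 : ∀ r ∈ T, 1 ≤ r := fun r hr => (hA r (hT.1 hr)).1
      exact le_trans (Pool.Agent.H387R2.Uni.CT_nonneg T) (Pool.Agent.W218.MU.CT_le_SD hT1)
    apply sum_le_sum_of_subset_of_nonneg
    · intro T hT
      rw [mem_filter] at hT ⊢
      refine ⟨hT.1, le_trans ?_ hT.2⟩
      have k2 : (0:ℝ) ≤ x / Real.log x ^ (k + 1) :=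
        div_nonneg (Nat.cast_nonneg _) (pow_nonneg (Real.log_natCast_nonneg x) _)
      exact mul_le_mul_of_nonneg_right (mul_le_mul_of_nonneg_right (min_le_left _ _) (hS0 T hT.1)) k2
    · intro T hT _
      exact hS0 T (mem_filter.1 hT).1
  · have h2 := hx2 x (le_trans (le_max_right _ _) hx) 0 A (fun a _ => Nat.modEq_one)
      (fun a ha => Nat.le_floor (hA a ha).2) (by simpa using hcard)
    simp only [Nat.totient_one, Nat.cast_one, div_one, one_pow, mul_one] at h2
    refine (mul_le_mul_of_nonneg_right (min_le_right κ1 κ2) (pow_nonneg (Nat.cast_nonneg _) _)).trans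
      (h2.trans ?_)
    apply sum_le_sum
    intro T hT
    rw [mem_powersetCard] at hT
    exact Pool.Agent.W218.MU.CT_le_SD fun r hr => (hA r (hT.1 hr)).1

end Pool.Agent.Results.MP_d018b2_nt.QuarterAtEveryScale
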