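import Pool.Agent.NH16.CD.Main

/-!
# Primes `q r_1 + 1, ..., q r_ℓ + 1`: boundedly many types of the `r_j`

For almost all vectors `r ∈ [1, R] ^ ℓ`, where `b log x ≤ R ≤ (log x) ^ A`, the number of the `q ∈ [x, 2 x)` such
that all `q r_j + 1` are prime is the conjectured main term times a factor which depends only on the types of
`r_1, ..., r_ℓ`.  The number of the types is bounded independently of `x` and `R`, the factor is of positive
product form, bounded, nearly one for `ℓ = 1`, and at least nearly one if all `r_j` have the same type.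
-/

set_option autoImplicit false

namespace Pool.Agent.Results.MP_d018b2_nt.TypesOfFactors

open Finset Filter

/-- the number of residue classes `q mod p` with `∏ (q r_j + 1) = 0 mod p` -/
def w {ℓ : ℕ} (r : Fin ℓ → ℕ) (p : ℕ) : ℕ := ((range p).filter (fun q => p ∣ ∏ j, (q * r j + 1))).card

/-- the singular product of the forms `q r_j + 1` -/
noncomputable def S {ℓ : ℕ} (r : Fin ℓ → ℕ) : ℝ :=
  ∏' p : Nat.Primes, (1 - (w r p : ℝ) / ((p : ℕ) : ℝ)) / (1 - 1 / ((p : ℕ) : ℝ)) ^ ℓ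

/-- the number of `x ≤ q < 2x` with all `q r_j + 1` prime -/
def N (x : ℕ) {ℓ : ℕ} (r : Fin ℓ → ℕ) : ℕ := ((Ico x (2 * x)).filter (fun q => ∀ j, (q * r j + 1).Prime)).card

/-- the residue classes `c` modulo `m` such that all `c r_j + 1` are prime to `m` -/
def admissible (m : ℕ) {ℓ : ℕ} (r : Fin ℓ → ℕ) : Finset ℕ := (range m).filter (fun c => ∀ i, (c * r i + 1).Coprime m)

/-- the factor `F(r)`: the average over the `c` in `admissible m r` and over `t` of the product over `i` of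
`X (type of r_i) c t`; `τ r` is the type of `r` -/
noncomputable def factor {K T : ℕ} (m : ℕ) (τ : ℕ → Fin K) (X : Fin K → ℕ → Fin T → ℝ) {ℓ : ℕ} (r : Fin ℓ → ℕ) : ℝ :=
  (∑ c ∈ admissible m r, (∑ t, ∏ i, X (τ (r i)) c t) / T) / (admissible m r).card

lemma admissible_eq {w r : ℕ} (h : Fin r → ℕ) :
    Pool.Agent.NH16.CD.admd w h = admissible (Pool.Agent.NH16.DL.Wn w) h := by
  unfold Pool.Agent.NH16.CD.admd admissible
  refine filter_congr fun a _ => forall_congr' fun i => ?_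
  exact Pool.Agent.NH16.DL.cop_iff

lemma factor_eq {w K T r : ℕ} (τ : ℕ → Fin K) (X : Fin K → ℕ → Fin T → ℝ) (h : Fin r → ℕ) :
    Pool.Agent.NH16.CD.facd w τ X h = factor (Pool.Agent.NH16.DL.Wn w) τ X h := by
  unfold Pool.Agent.NH16.CD.facd factor
  rw [admissible_eq h]

/-- For every `L` there is `C` such that for every `δ > 0` there are `m`, `K` and `b` such that for every `A ≥ 0`, all
large `x` and all `R` with `b log x ≤ R ≤ (log x) ^ A` there are a map `τ` to `K` types, compatible with the residues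
modulo `m`, and a nonnegative function `X k` on `{0, ..., m - 1} × {1, ..., T}` for every type `k` such that the factor
`F` is `1 + O(δ)` for single `r ≤ R` and for every `1 ≤ ℓ ≤ L`: `F ≤ C` on `[1, R] ^ ℓ`, `F(r) ≥ 1 - δ` if all components
of `r` have the same type, and `|N(x; r) - F(r) S(r) x / log ^ ℓ x| ≤ δ x / log ^ ℓ x` for all but at most `δ R ^ ℓ` of the
`r ∈ [1, R] ^ ℓ`. -/
theorem result (L : ℕ) : ∃ C : ℝ, ∀ δ : ℝ, 0 < δ → ∃ (m K : ℕ) (b : ℝ), 1 ≤ m ∧ ∀ A : ℝ, 0 ≤ A →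
    ∀ᶠ x : ℕ in atTop, ∀ R : ℕ, b * Real.log x ≤ R → (R : ℝ) ≤ Real.log x ^ A →
      ∃ (T : ℕ) (τ : ℕ → Fin K) (X : Fin K → ℕ → Fin T → ℝ), 1 ≤ T ∧
        (∀ r r' : ℕ, τ r = τ r' → r ≡ r' [MOD m]) ∧ (∀ k c t, 0 ≤ X k c t) ∧
        (∀ r ∈ Icc 1 R, |factor m τ X (fun _ : Fin 1 => r) - 1| ≤ δ) ∧
        ∀ ℓ : ℕ, 1 ≤ ℓ → ℓ ≤ L →
          (∀ r ∈ Fintype.piFinset (fun _ : Fin ℓ => Icc 1 R), factor m τ X r ≤ C ∧
            ((∀ i j, τ (r i) = τ (r j)) → 1 - δ ≤ factor m τ X r)) ∧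
          (((Fintype.piFinset (fun _ : Fin ℓ => Icc 1 R)).filter (fun r => δ * (x / Real.log x ^ ℓ) <
            |(N x r : ℝ) - factor m τ X r * S r * (x / Real.log x ^ ℓ)|)).card : ℝ) ≤ δ * (R : ℝ) ^ ℓ := by
  obtain ⟨C, -, h⟩ := Pool.Agent.NH16.CD.Main.main L
  refine ⟨C, fun δ hδ => ?_⟩
  obtain ⟨w, K, b, h⟩ := h δ hδ
  refine ⟨Pool.Agent.NH16.DL.Wn w, K, b, Pool.Agent.NH16.DL.Wn_pos w, fun A hA => ?_⟩
  filter_upwards [h A hA] with x hx R hR1 hR2
  obtain ⟨T, τ, X, h1, h2, h3, h4, h5⟩ := hx R hR1 hR2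
  refine ⟨T, τ, X, h1, fun r r' h => h2 r r' h, h3, fun r hr => ?_, fun ℓ hℓ1 hℓL => ?_⟩
  · rw [← factor_eq τ X (fun _ : Fin 1 => r)]
    exact h4 r hr
  · obtain ⟨n, rfl⟩ := Nat.exists_eq_add_of_le' hℓ1
    obtain ⟨h6, h7, h8⟩ := h5 n (by omega)
    refine ⟨fun r hr => ?_, ?_⟩
    · rw [Fintype.mem_piFinset] at hr
      rw [← factor_eq τ X r]
      exact ⟨h6 r hr, fun hty => h7 r hr hty⟩
    · refine le_trans (le_of_eq ?_) h8
      congr 2
      refine filter_congr fun a _ => ?_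
      rw [← factor_eq τ X a]
      rfl

end Pool.Agent.Results.MP_d018b2_nt.TypesOfFactors
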